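import Pool.Agent.helper45.SGC.Spec

set_option autoImplicit false

namespace Pool.Agent.SGC

open Finset Pool.Agent.helper38.Neg Pool.Agent.helper55.NT

/-- the circuit with renamed gates -/
def TRN_ren {n : ℕ} {W W' : Type} (e : W ≃ W') (C : SCirc n W) : SCirc n W' where
  lab g := C.lab (e.symm g)
  kids g := (C.kids (e.symm g)).map e.toEmbedding
  fn g := C.fn (e.symm g)
  rank g := C.rank (e.symm g)
  acyc := by
    intro g h hh
    rw [Finset.mem_map] at hh
    obtain ⟨h0, h1, h2⟩ := hh
    rw [← h2]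
    have : e.symm (e.toEmbedding h0) = h0 := by simp
    rw [this]
    exact C.acyc _ _ h1
  out := e C.out

theorem TRN_val {n : ℕ} {W W' : Type} (e : W ≃ W') (C : SCirc n W) (x : Fin n → Bool) (k : ℕ) :
    ∀ g : W, C.rank g < k → (TRN_ren e C).val x (e g) = C.val x g := by
  induction k with
  | zero => intro g hg; omega
  | succ k ih =>
    intro g hg
    have hl : (TRN_ren e C).lab (e g) = C.lab g := by simp [TRN_ren]
    rcases hc : C.lab g with _ | p
    · rw [SCirc.val_none _ _ _ (hl.trans hc), SCirc.val_none _ _ _ hc]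
      have hf : (TRN_ren e C).fn (e g) = C.fn g := by simp [TRN_ren]
      have hk : (TRN_ren e C).kids (e g) = (C.kids g).map e.toEmbedding := by simp [TRN_ren]
      rw [hf, hk, Finset.filter_map, Finset.card_map]
      congr 2
      apply Finset.filter_congr
      intro h hh
      have h1 : C.rank h < k := lt_of_lt_of_le (C.acyc g h hh) (Nat.lt_succ_iff.mp hg)
      show (TRN_ren e C).val x (e h) = true ↔ C.val x h = true
      rw [ih h h1]
    · rw [SCirc.val_some _ _ _ p (hl.trans hc), SCirc.val_some _ _ _ p hc]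

theorem TRN_ext {n : ℕ} {W W' : Type} (e : W ≃ W') (C : SCirc n W) (ρ : Fin n → Fin n)
    (π : Equiv.Perm W) (h : Ext C ρ π) :
    Ext (TRN_ren e C) ρ (e.symm.trans (π.trans e)) := by
  obtain ⟨h1, h2, h3, h4⟩ := h
  refine ⟨?_, ?_, ?_, ?_⟩
  · intro g
    simp only [TRN_ren, Equiv.trans_apply, Equiv.symm_apply_apply]
    exact h1 _
  · intro g
    simp only [TRN_ren, Equiv.trans_apply, Equiv.symm_apply_apply]
    rw [h2, Finset.map_map, Finset.map_map]
    ext a
    simp only [Finset.mem_map, Function.Embedding.trans_apply, Equiv.coe_toEmbedding,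
      Equiv.trans_apply, Equiv.symm_apply_apply]
  · intro g
    simp only [TRN_ren, Equiv.trans_apply, Equiv.symm_apply_apply]
    exact h3 _
  · simp only [TRN_ren, Equiv.trans_apply, Equiv.symm_apply_apply]
    rw [h4]

theorem TRN : TRN_stmt := by
  intro n W _ V C hS
  refine ⟨TRN_ren (Fintype.equivFin W) C, ?_, ?_⟩
  · intro γ hγ
    obtain ⟨π, hπ⟩ := hS γ hγ
    exact ⟨_, TRN_ext _ C _ π hπ⟩
  · intro x
    exact TRN_val (Fintype.equivFin W) C x (C.rank C.out + 1) C.out (Nat.lt_succ_self _)

end Pool.Agent.SGC
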